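import Pool.Agent.L0h46.CV.Stm

/-!
# CV / COL: colouring of the points at which `q` divides a binary form
-/

set_option autoImplicit false

namespace Pool.Agent.L0h55.CV

open Finset Polynomial
open Pool.Agent.L0h46.CV

/-- evaluation of the dehomogenised polynomial -/
theorem eval_fp (d : ℕ) (c : ℕ → ℤ) (t : ℤ) : (fp d c).eval t = ∑ i ∈ range (d + 1), c i * t ^ i := by
  simp [fp, eval_finsetSum]

theorem eval_map_fp (d : ℕ) (c : ℕ → ℤ) (p : ℕ) (t : ZMod p) :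
    ((fp d c).map (Int.castRingHom (ZMod p))).eval t = ∑ i ∈ range (d + 1), (c i : ZMod p) * t ^ i := by
  simp [fp, Polynomial.map_sum, eval_finsetSum]

/-- `F(x) u ^ d = f(x₁ u)` modulo `N` if `x₂ u = 1` modulo `N` -/
theorem fm_mul_pow (d : ℕ) (c : ℕ → ℤ) (N u : ℤ) (x : ℤ × ℤ) (hu : N ∣ u * x.2 - 1) (hF : N ∣ fm d c x) :
    N ∣ (fp d c).eval (x.1 * u) := by
  have h1 : fm d c x * u ^ d ≡ (fp d c).eval (x.1 * u) [ZMOD N] := by
    rw [eval_fp, fm, Finset.sum_mul]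
    refine Int.ModEq.sum fun i hi => ?_
    have hi' : i ≤ d := Nat.lt_succ_iff.1 (mem_range.1 hi)
    have h2 : u * x.2 ≡ 1 [ZMOD N] := (Int.modEq_iff_dvd.2 (by simpa using hu)).symm
    have h3 : c i * x.1 ^ i * x.2 ^ (d - i) * u ^ d = c i * (x.1 * u) ^ i * (u * x.2) ^ (d - i) := by
      have : u ^ d = u ^ i * u ^ (d - i) := by rw [← pow_add, Nat.add_sub_cancel' hi']
      rw [this, mul_pow, mul_pow]; ring
    rw [h3]
    have h4 := (h2.pow (d - i)).mul_left (c i * (x.1 * u) ^ i)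
    simpa using h4
  exact (Int.ModEq.dvd_iff h1).1 (hF.mul_right _)

/-- separability at a root -/
theorem der_ne {d : ℕ} {c : ℕ → ℤ} {p : ℕ} (hG : Gd d c p) (s : ℤ) (hs : (p : ℤ) ∣ (fp d c).eval s) :
    ¬ (p : ℤ) ∣ (derivative (fp d c)).eval s := by
  obtain ⟨hp, hsq, -⟩ := hG
  have : Fact p.Prime := ⟨hp⟩
  intro hs'
  have hsep := PerfectField.separable_iff_squarefree.2 hsq
  obtain ⟨a, b, hab⟩ := hsep
  have h1 : ((fp d c).map (Int.castRingHom (ZMod p))).eval (s : ZMod p) = 0 := by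
    have := eval_intCast_map (Int.castRingHom (ZMod p)) (fp d c) s
    rw [this]
    simpa using (ZMod.intCast_zmod_eq_zero_iff_dvd _ p).2 hs
  have h2 : (derivative ((fp d c).map (Int.castRingHom (ZMod p)))).eval (s : ZMod p) = 0 := by
    rw [derivative_map]
    have := eval_intCast_map (Int.castRingHom (ZMod p)) (derivative (fp d c)) s
    rw [this]
    simpa using (ZMod.intCast_zmod_eq_zero_iff_dvd _ p).2 hs'
  have h3 := congrArg (eval (s : ZMod p)) hab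
  rw [eval_add, eval_mul, eval_mul, h1, h2, mul_zero, mul_zero, add_zero, eval_one] at h3
  exact zero_ne_one h3

/-- a class at a finite root -/
theorem fin_class {d : ℕ} {c : ℕ → ℤ} {p : ℕ} (hG : Gd d c p) (k : ℕ) (hk : k ≠ 0) (x y : ℤ × ℤ)
    (hx : ¬ (p : ℤ) ∣ x.2) (hy : ¬ (p : ℤ) ∣ y.2) (hFx : (p : ℤ) ^ k ∣ fm d c x) (hFy : (p : ℤ) ^ k ∣ fm d c y)
    (hxy : (p : ℤ) ∣ x.1 * y.2 - x.2 * y.1) : (p : ℤ) ^ k ∣ x.1 * y.2 - x.2 * y.1 := by
  have hp : Prime (p : ℤ) := Nat.prime_iff_prime_int.1 hG.1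
  have hpk : (p : ℤ) ∣ (p : ℤ) ^ k := dvd_pow_self _ hk
  obtain ⟨u', u, hu⟩ := ((hp.coprime_iff_not_dvd.2 hx).pow_left (m := k))
  obtain ⟨v', v, hv⟩ := ((hp.coprime_iff_not_dvd.2 hy).pow_left (m := k))
  have hu1 : (p : ℤ) ^ k ∣ u * x.2 - 1 := ⟨-u', by linear_combination hu⟩
  have hv1 : (p : ℤ) ^ k ∣ v * y.2 - 1 := ⟨-v', by linear_combination hv⟩
  have hft := fm_mul_pow d c _ u x hu1 hFx
  have hfs := fm_mul_pow d c _ v y hv1 hFy
  set t := x.1 * u with ht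
  set s := y.1 * v with hs
  have hts : (p : ℤ) ∣ t - s := by
    have e : t - s = u * v * (x.1 * y.2 - x.2 * y.1) - x.1 * u * (v * y.2 - 1) + y.1 * v * (u * x.2 - 1) := by
      rw [ht, hs]; ring
    rw [e]
    exact dvd_add (dvd_sub (hxy.mul_left _) ((hpk.trans hv1).mul_left _)) ((hpk.trans hu1).mul_left _)
  obtain ⟨w, hw⟩ := binomExpansion (fp d c) s (t - s)
  rw [add_sub_cancel] at hw
  have hd := der_ne hG s (hpk.trans hfs)
  have hd2 : ¬ (p : ℤ) ∣ (derivative (fp d c)).eval s + w * (t - s) := by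
    intro h
    exact hd ((dvd_add_left (hts.mul_left w)).1 h)
  have h1 : (p : ℤ) ^ k ∣ ((derivative (fp d c)).eval s + w * (t - s)) * (t - s) := by
    have e : ((derivative (fp d c)).eval s + w * (t - s)) * (t - s) = (fp d c).eval t - (fp d c).eval s := by
      rw [hw]; ring
    rw [e]
    exact dvd_sub hft hfs
  have h2 : (p : ℤ) ^ k ∣ t - s :=
    ((hp.coprime_iff_not_dvd.2 hd2).pow_left (m := k)).dvd_of_dvd_mul_left h1
  have e : x.1 * y.2 - x.2 * y.1 = (t - s) * (x.2 * y.2) - x.1 * y.2 * (u * x.2 - 1) + x.2 * y.1 * (v * y.2 - 1) := by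
    rw [ht, hs]; ring
  rw [e]
  exact dvd_add (dvd_sub (h2.mul_right _) (hu1.mul_left _)) (hv1.mul_left _)

/-- the class at infinity -/
theorem inf_class {d : ℕ} {c : ℕ → ℤ} {p : ℕ} (hd : 1 ≤ d) (hG : Gd d c p) (k : ℕ) (hk : k ≠ 0) (x : ℤ × ℤ)
    (hco : IsCoprime x.1 x.2) (hx : (p : ℤ) ∣ x.2) (hFx : (p : ℤ) ^ k ∣ fm d c x) : (p : ℤ) ^ k ∣ x.2 := by
  have hp : Prime (p : ℤ) := Nat.prime_iff_prime_int.1 hG.1
  have hpk : (p : ℤ) ∣ (p : ℤ) ^ k := dvd_pow_self _ hk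
  have hx1 : ¬ (p : ℤ) ∣ x.1 := fun h => hp.not_isUnit (hco.isUnit_of_dvd' h hx)
  obtain ⟨e, rfl⟩ : ∃ e, d = e + 1 := ⟨d - 1, by omega⟩
  -- F = x₂ G + c_d x₁^d
  have hsplit : fm (e + 1) c x = x.2 * (∑ i ∈ range (e + 1), c i * x.1 ^ i * x.2 ^ (e - i)) + c (e + 1) * x.1 ^ (e + 1) := by
    rw [fm, Finset.sum_range_succ, Finset.mul_sum, Nat.sub_self, pow_zero, mul_one]
    congr 1
    refine Finset.sum_congr rfl fun i hi => ?_
    have hi' : i ≤ e := Nat.lt_succ_iff.1 (mem_range.1 hi)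
    rw [show e + 1 - i = (e - i) + 1 by omega, pow_succ]; ring
  have hcd : (p : ℤ) ∣ c (e + 1) := by
    have h1 : (p : ℤ) ∣ c (e + 1) * x.1 ^ (e + 1) := by
      have := hpk.trans hFx
      rw [hsplit] at this
      exact (dvd_add_right (hx.mul_right _)).1 this
    rcases hp.dvd_or_dvd h1 with h | h
    · exact h
    · exact absurd (hp.dvd_of_dvd_pow h) hx1
  have hc0 : c (e + 1) = 0 ∧ (c e : ZMod p) ≠ 0 := by
    rcases hG.2.2 with h | h
    · exact absurd ((ZMod.intCast_zmod_eq_zero_iff_dvd _ p).2 hcd) h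
    · simpa using h
  have hG2 : ¬ (p : ℤ) ∣ ∑ i ∈ range (e + 1), c i * x.1 ^ i * x.2 ^ (e - i) := by
    rw [Finset.sum_range_succ, Nat.sub_self, pow_zero, mul_one]
    intro h
    have h1 : (p : ℤ) ∣ ∑ i ∈ range e, c i * x.1 ^ i * x.2 ^ (e - i) := by
      refine Finset.dvd_sum fun i hi => ?_
      have hi' : i < e := mem_range.1 hi
      exact (hx.trans (dvd_pow_self _ (by omega))).mul_left _
    have h2 : (p : ℤ) ∣ c e * x.1 ^ e := (dvd_add_right h1).1 h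
    rcases hp.dvd_or_dvd h2 with h | h
    · exact hc0.2 ((ZMod.intCast_zmod_eq_zero_iff_dvd _ p).2 h)
    · exact hx1 (hp.dvd_of_dvd_pow h)
  rw [hsplit, hc0.1, zero_mul, add_zero] at hFx
  exact ((hp.coprime_iff_not_dvd.2 hG2).pow_left (m := k)).dvd_of_dvd_mul_right hFx

/-- colouring modulo a prime -/
theorem col_prime {d : ℕ} {c : ℕ → ℤ} {p : ℕ} (hG : Gd d c p) : ∃ g : ℤ × ℤ → Fin (d + 1), ∀ x y : ℤ × ℤ,
    (p : ℤ) ∣ fm d c x → (p : ℤ) ∣ fm d c y → g x = g y →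
    ((p : ℤ) ∣ x.2 ∧ (p : ℤ) ∣ y.2) ∨ (¬ (p : ℤ) ∣ x.2 ∧ ¬ (p : ℤ) ∣ y.2 ∧ (p : ℤ) ∣ x.1 * y.2 - x.2 * y.1) := by
  classical
  have : Fact p.Prime := ⟨hG.1⟩
  set f := (fp d c).map (Int.castRingHom (ZMod p)) with hf
  have hf0 : f ≠ 0 := hG.2.1.ne_zero
  set R : Finset (ZMod p) := f.roots.toFinset with hR
  have hcard : R.card ≤ d := by
    refine (Multiset.toFinset_card_le _).trans ((card_roots' f).trans ?_)
    refine (natDegree_map_le).trans ?_
    refine natDegree_sum_le_of_forall_le _ _ fun i hi => ?_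
    exact (natDegree_C_mul_X_pow_le _ _).trans (Nat.lt_succ_iff.1 (mem_range.1 hi))
  obtain ⟨e⟩ : Nonempty (Option {t // t ∈ R} ↪ Fin (d + 1)) := by
    apply Function.Embedding.nonempty_of_card_le
    rw [Fintype.card_option, Fintype.card_coe, Fintype.card_fin]
    omega
  have hroot : ∀ x : ℤ × ℤ, (p : ℤ) ∣ fm d c x → ¬ (p : ℤ) ∣ x.2 → (x.1 : ZMod p) / (x.2 : ZMod p) ∈ R := by
    intro x hFx hx
    have hx2 : (x.2 : ZMod p) ≠ 0 := fun h => hx ((ZMod.intCast_zmod_eq_zero_iff_dvd _ p).1 h)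
    rw [hR, Multiset.mem_toFinset, mem_roots hf0, IsRoot, hf, eval_map_fp]
    have h1 : ((fm d c x : ℤ) : ZMod p) = 0 := (ZMod.intCast_zmod_eq_zero_iff_dvd _ p).2 hFx
    have h2 : (x.2 : ZMod p) ^ d * ∑ i ∈ range (d + 1), (c i : ZMod p) * ((x.1 : ZMod p) / (x.2 : ZMod p)) ^ i = 0 := by
      rw [← h1, fm, Int.cast_sum, Finset.mul_sum]
      refine Finset.sum_congr rfl fun i hi => ?_
      have hi' : i ≤ d := Nat.lt_succ_iff.1 (mem_range.1 hi)
      push_cast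
      have e3 : (x.2 : ZMod p) ^ d = (x.2 : ZMod p) ^ i * (x.2 : ZMod p) ^ (d - i) := by
        rw [← pow_add, Nat.add_sub_cancel' hi']
      rw [e3, div_pow]
      field_simp
    exact (mul_eq_zero.1 h2).resolve_left (pow_ne_zero _ hx2)
  let g : ℤ × ℤ → Fin (d + 1) := fun x =>
    if (p : ℤ) ∣ x.2 then e none
    else if h : (x.1 : ZMod p) / (x.2 : ZMod p) ∈ R then e (some ⟨_, h⟩) else e none
  refine ⟨g, fun x y hFx hFy hg => ?_⟩
  by_cases hx : (p : ℤ) ∣ x.2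
  · by_cases hy : (p : ℤ) ∣ y.2
    · exact Or.inl ⟨hx, hy⟩
    · exfalso
      have h1 := hroot y hFy hy
      simp only [g, if_pos hx, if_neg hy, dif_pos h1] at hg
      have := e.injective hg
      simp at this
  · have h1 := hroot x hFx hx
    by_cases hy : (p : ℤ) ∣ y.2
    · exfalso
      simp only [g, if_pos hy, if_neg hx, dif_pos h1] at hg
      have := e.injective hg
      simp at this
    · right
      have h2 := hroot y hFy hy
      simp only [g, if_neg hx, if_neg hy, dif_pos h1, dif_pos h2] at hg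
      have h3 := e.injective hg
      simp only [Option.some.injEq, Subtype.mk.injEq] at h3
      refine ⟨hx, hy, ?_⟩
      have hx2 : (x.2 : ZMod p) ≠ 0 := fun h => hx ((ZMod.intCast_zmod_eq_zero_iff_dvd _ p).1 h)
      have hy2 : (y.2 : ZMod p) ≠ 0 := fun h => hy ((ZMod.intCast_zmod_eq_zero_iff_dvd _ p).1 h)
      rw [div_eq_div_iff hx2 hy2] at h3
      rw [← ZMod.intCast_zmod_eq_zero_iff_dvd]
      push_cast
      rw [h3]; ring

theorem col : S_COL := by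
  classical
  intro d c hd q hq hG
  have hA : ∀ p : q.primeFactors, ∃ g : ℤ × ℤ → Fin (d + 1), ∀ x y : ℤ × ℤ,
      ((p : ℕ) : ℤ) ∣ fm d c x → ((p : ℕ) : ℤ) ∣ fm d c y → g x = g y →
      (((p : ℕ) : ℤ) ∣ x.2 ∧ ((p : ℕ) : ℤ) ∣ y.2) ∨
        (¬ ((p : ℕ) : ℤ) ∣ x.2 ∧ ¬ ((p : ℕ) : ℤ) ∣ y.2 ∧ ((p : ℕ) : ℤ) ∣ x.1 * y.2 - x.2 * y.1) := by
    rintro ⟨p, hp⟩
    exact col_prime (hG p (Nat.prime_of_mem_primeFactors hp) (Nat.dvd_of_mem_primeFactors hp))
  choose g hg using hA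
  let E := Fintype.equivFin (q.primeFactors → Fin (d + 1))
  refine ⟨fun x => (E (fun p => g p x) : ℕ), fun x _ _ => ?_, fun x y hcx hcy hFx hFy hxy => ?_⟩
  · have h1 := (E (fun p => g p x)).isLt
    have h2 : Fintype.card (q.primeFactors → Fin (d + 1)) = (d + 1) ^ q.primeFactors.card := by
      rw [Fintype.card_fun, Fintype.card_fin, Fintype.card_coe]
    exact h2 ▸ h1
  · have h1 : (fun p => g p x) = fun p => g p y := E.injective (Fin.ext hxy)
    rw [Int.natCast_dvd, Nat.dvd_iff_prime_pow_dvd_dvd]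
    intro p k hp hpk
    rcases Nat.eq_zero_or_pos k with rfl | hk
    · simp
    have hpq : p ∣ q := (dvd_pow_self p hk.ne').trans hpk
    have hmem : p ∈ q.primeFactors := Nat.mem_primeFactors.2 ⟨hp, hpq, hq.ne'⟩
    have h2 := congrFun h1 ⟨p, hmem⟩
    have hpkZ : (p : ℤ) ^ k ∣ (q : ℤ) := by exact_mod_cast hpk
    have hpZ : (p : ℤ) ∣ (q : ℤ) := by exact_mod_cast hpq
    have hGp := hG p hp hpq
    rw [← Int.natCast_dvd]
    push_cast
    rcases hg ⟨p, hmem⟩ x y (hpZ.trans hFx) (hpZ.trans hFy) h2 with ⟨ha, hb⟩ | ⟨ha, hb, hc⟩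
    · have h3 := inf_class hd hGp k hk.ne' x hcx ha (hpkZ.trans hFx)
      have h4 := inf_class hd hGp k hk.ne' y hcy hb (hpkZ.trans hFy)
      exact dvd_sub (h4.mul_left _) (h3.mul_right _)
    · exact fin_class hGp k hk.ne' x y ha hb (hpkZ.trans hFx) (hpkZ.trans hFy) hc

end Pool.Agent.L0h55.CV
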